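import Mathlib
import Pool.Agent.W69.MH.Stm

/-!
Project MH (helper69): many primes in every class modulo `2 ^ k * d`.
-/

set_option autoImplicit false

open Finset

namespace Pool.Agent.W928.MH

open Pool.Agent.H262R3.Lk Pool.Agent.W69.MH

theorem pr (hLIN : St_LIN) (hTAIL : St_TAIL) (hREAL : St_REAL) : St_PR := by
  obtain ⟨A, c, hA, hc, z1, h1⟩ := hLIN
  obtain ⟨K, z2, hK, h2⟩ := hTAIL A (c / 2) hA (by positivity)
  have hK0 : (0 : ℝ) < (K : ℝ) := by exact_mod_cast hK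
  refine ⟨K, c / (2 * (K : ℝ) ^ 3), hK, by positivity, fun B => ?_⟩
  obtain ⟨z3, h3⟩ := hREAL B
  refine ⟨max (max z1 z2) (max z3 3), ?_⟩
  intro z hz k d b hd hdB hq hb
  have hz1 : z1 ≤ z := le_trans (le_trans (le_max_left _ _) (le_max_left _ _)) hz
  have hz2 : z2 ≤ z := le_trans (le_trans (le_max_right _ _) (le_max_left _ _)) hz
  have hz3 : z3 ≤ z := le_trans (le_trans (le_max_left _ _) (le_max_right _ _)) hz
  have hz4 : 3 ≤ z := le_trans (le_trans (le_max_right _ _) (le_max_right _ _)) hz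
  have hqpos : 0 < 2 ^ k * d := Nat.mul_pos (by positivity) hd.pos
  have hlog : (1 : ℝ) ≤ Real.log z := by
    rw [Real.le_log_iff_exp_le (by exact_mod_cast (by omega : 0 < z))]
    have h5 : Real.exp 1 < 2.7182818286 := Real.exp_one_lt_d9
    have h6 : (3 : ℝ) ≤ (z : ℝ) := by exact_mod_cast hz4
    linarith
  have hAlog : (1 : ℝ) ≤ A * Real.log z := by nlinarith
  have hs0 : (0 : ℝ) < 1 / (A * Real.log z) := by positivity
  have hs1 : 1 / (A * Real.log z) ≤ (1 : ℝ) := by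
    rw [div_le_one (by linarith)]
    exact hAlog
  have hqz : 2 ^ k * d ≤ z := le_trans (Nat.le_self_pow (by norm_num) _) hq
  haveI : NeZero (2 ^ k * d) := ⟨hqpos.ne'⟩
  have hlow := h1 z (2 ^ k * d) b hz1 hq hb
    (fun χ hχ hχ2 => h3 z hz3 k d hd hdB hqz χ hχ hχ2 _ hs0 hs1)
  have hup := h2 z (2 ^ k * d) b hz2 hqpos hq hb
  have hphi : (0 : ℝ) < ((2 ^ k * d).totient : ℝ) := by
    exact_mod_cast Nat.totient_pos.2 hqpos
  have hL3 : (0 : ℝ) < (Real.log z) ^ 3 := by positivity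
  set S : ℝ := ∑ p ∈ (Ioc z (z ^ K)).filter (fun p => p.Prime ∧ p ≡ b [MOD 2 ^ k * d]), (1 : ℝ) / p
    with hS
  have h5 : c * (Real.log z) ^ 3 / ((2 ^ k * d).totient : ℝ) ≤
      c / 2 * (Real.log z) ^ 3 / ((2 ^ k * d).totient : ℝ) + (K : ℝ) ^ 3 * (Real.log z) ^ 3 * S :=
    le_trans hlow hup
  have h6 : (c / 2 / ((2 ^ k * d).totient : ℝ)) * (Real.log z) ^ 3 ≤
      ((K : ℝ) ^ 3 * S) * (Real.log z) ^ 3 := by
    have e1 : c * (Real.log z) ^ 3 / ((2 ^ k * d).totient : ℝ) =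
        2 * ((c / 2 / ((2 ^ k * d).totient : ℝ)) * (Real.log z) ^ 3) := by
      field_simp
    have e2 : c / 2 * (Real.log z) ^ 3 / ((2 ^ k * d).totient : ℝ) =
        (c / 2 / ((2 ^ k * d).totient : ℝ)) * (Real.log z) ^ 3 := by
      field_simp
    rw [e1, e2] at h5
    nlinarith
  have h7 : c / 2 / ((2 ^ k * d).totient : ℝ) ≤ (K : ℝ) ^ 3 * S :=
    le_of_mul_le_mul_right h6 hL3
  have hK3 : (0 : ℝ) < (K : ℝ) ^ 3 := by positivity
  have e3 : c / (2 * (K : ℝ) ^ 3) / ((2 ^ k * d).totient : ℝ) =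
      (c / 2 / ((2 ^ k * d).totient : ℝ)) / (K : ℝ) ^ 3 := by
    field_simp
  rw [e3, div_le_iff₀ hK3]
  linarith

end Pool.Agent.W928.MH
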